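import Pool.Agent.H484.HH.Stm

/-! S_WS (subtask 5347, for helper484). -/

set_option autoImplicit false

open Finset

namespace Pool.Agent.H553.HH

open Pool.Agent.H484.HH

theorem step (a : ℝ) (ha : 0 < a) (p : ℝ) (hp : 1 ≤ p) :
    1 / ((p + a) * Real.sqrt (p + a)) ≤
      2 / a * (1 / Real.sqrt p - 1 / Real.sqrt (p + a)) := by
  set x := Real.sqrt p with hx
  set y := Real.sqrt (p + a) with hy
  have hx0 : 0 < x := Real.sqrt_pos.2 (by linarith)
  have hxy : x ≤ y := Real.sqrt_le_sqrt (by linarith)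
  have hy0 : 0 < y := hx0.trans_le hxy
  have hx2 : x ^ 2 = p := Real.sq_sqrt (by linarith)
  have hy2 : y ^ 2 = p + a := Real.sq_sqrt (by linarith)
  have ha2 : a = y ^ 2 - x ^ 2 := by rw [hy2, hx2]; ring
  have hpa : p + a = y ^ 2 := hy2.symm
  have hlt : x < y := Real.sqrt_lt_sqrt (by linarith) (by linarith)
  rw [hpa, ha2]
  have hd : 0 < y ^ 2 - x ^ 2 := by nlinarith
  have e1 : 2 / (y ^ 2 - x ^ 2) * (1 / x - 1 / y) = 2 / (x * y * (x + y)) := by
    have h1 : y ^ 2 - x ^ 2 = (y - x) * (x + y) := by ring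
    have h2 : y - x ≠ 0 := by linarith
    have h3 : x + y ≠ 0 := by linarith
    rw [h1]
    field_simp
  rw [e1, div_le_div_iff₀ (by positivity) (by positivity)]
  nlinarith [mul_nonneg hx0.le hy0.le, mul_nonneg (mul_nonneg hx0.le hy0.le) hy0.le,
    mul_nonneg (mul_nonneg hy0.le hy0.le) (sub_nonneg.2 hxy),
    mul_nonneg (mul_nonneg hx0.le hy0.le) (sub_nonneg.2 hxy)]

theorem tele (a : ℝ) (ha : 0 < a) (n : ℕ) :
    ∑ m ∈ range n, 1 / ((1 + a * ((m : ℝ) + 1)) * Real.sqrt (1 + a * ((m : ℝ) + 1))) ≤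
      2 / a * (1 - 1 / Real.sqrt (1 + a * n)) := by
  induction n with
  | zero => simp
  | succ n ih =>
    rw [sum_range_succ]
    have h := step a ha (1 + a * n) (by nlinarith [Nat.cast_nonneg (α := ℝ) n])
    have e : 1 + a * (n : ℝ) + a = 1 + a * ((n : ℝ) + 1) := by ring
    rw [e] at h
    push_cast
    have : 2 / a * (1 - 1 / Real.sqrt (1 + a * ((n : ℝ) + 1))) =
        2 / a * (1 - 1 / Real.sqrt (1 + a * n)) +
          2 / a * (1 / Real.sqrt (1 + a * n) - 1 / Real.sqrt (1 + a * ((n : ℝ) + 1))) := by ring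
    rw [this]
    exact add_le_add ih h

theorem tele' (a : ℝ) (ha : 0 < a) (n : ℕ) :
    ∑ m ∈ range n, 1 / ((1 + a * ((m : ℝ) + 1)) * Real.sqrt (1 + a * ((m : ℝ) + 1))) ≤ 2 / a := by
  refine (tele a ha n).trans ?_
  have h1 : 0 ≤ 1 / Real.sqrt (1 + a * n) := by positivity
  have h2 : 0 < 2 / a := by positivity
  nlinarith

/-- a function of the absolute value of the residue -/
theorem fold (N : ℕ) [NeZero N] (f : ℕ → ℝ) (hf : ∀ m, 0 ≤ f m) :
    ∑ k : ZMod N, f k.valMinAbs.natAbs ≤ f 0 + 2 * ∑ m ∈ range (N / 2), f (m + 1) := by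
  classical
  have hmaps : ∀ k ∈ (univ : Finset (ZMod N)), k.valMinAbs.natAbs ∈ range (N / 2 + 1) := by
    intro k _
    rw [mem_range]
    exact Nat.lt_succ_of_le (ZMod.natAbs_valMinAbs_le k)
  rw [← sum_fiberwise_of_maps_to hmaps]
  have hfib : ∀ m : ℕ, (univ.filter fun k : ZMod N => k.valMinAbs.natAbs = m) ⊆
      {((m : ℤ) : ZMod N), ((-(m : ℤ) : ℤ) : ZMod N)} := by
    intro m k hk
    rw [mem_filter] at hk
    rcases Int.natAbs_eq k.valMinAbs with h | h
    · rw [hk.2] at h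
      simp only [mem_insert, mem_singleton]
      left
      rw [← h, ZMod.coe_valMinAbs]
    · rw [hk.2] at h
      simp only [mem_insert, mem_singleton]
      right
      rw [← h, ZMod.coe_valMinAbs]
  have hsum : ∀ m : ℕ, ∑ k ∈ univ.filter (fun k : ZMod N => k.valMinAbs.natAbs = m),
      f k.valMinAbs.natAbs = ((univ.filter fun k : ZMod N => k.valMinAbs.natAbs = m).card : ℝ) *
        f m := by
    intro m
    rw [sum_congr rfl (g := fun _ => f m) (fun k hk => by rw [(mem_filter.1 hk).2]), sum_const,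
      nsmul_eq_mul]
  rw [sum_congr rfl fun m _ => hsum m, sum_range_succ']
  have h0 : ((univ.filter fun k : ZMod N => k.valMinAbs.natAbs = 0).card : ℝ) * f 0 ≤ f 0 := by
    have h1 : (univ.filter fun k : ZMod N => k.valMinAbs.natAbs = 0).card ≤ 1 := by
      refine (card_le_card (hfib 0)).trans ?_
      simp
    have h2 : ((univ.filter fun k : ZMod N => k.valMinAbs.natAbs = 0).card : ℝ) ≤ 1 := by
      exact_mod_cast h1
    nlinarith [hf 0]
  have h1 : ∑ m ∈ range (N / 2),
      ((univ.filter fun k : ZMod N => k.valMinAbs.natAbs = m + 1).card : ℝ) * f (m + 1) ≤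
      ∑ m ∈ range (N / 2), 2 * f (m + 1) := by
    refine sum_le_sum fun m _ => mul_le_mul_of_nonneg_right ?_ (hf _)
    have := (card_le_card (hfib (m + 1))).trans card_le_two
    exact_mod_cast this
  rw [← mul_sum] at h1
  linarith

end Pool.Agent.H553.HH

namespace Pool.Agent.H484.HH

theorem t_WS : S_WS := by
  intro N _ j hj
  have hN : 0 < N := Nat.pos_of_ne_zero (NeZero.ne N)
  have hN' : (0 : ℝ) < N := by exact_mod_cast hN
  set a : ℝ := 2 ^ j / N with ha
  have ha0 : 0 < a := by positivity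
  have ha1 : a ≤ 1 := by
    rw [ha, div_le_one hN']
    exact_mod_cast hj
  set f : ℕ → ℝ := fun m =>
    1 / ((1 + a * max 1 (m : ℝ)) * Real.sqrt (1 + a * max 1 (m : ℝ))) with hf
  have hterm : ∀ k : ZMod N, 1 / ((1 + 2 ^ j * M k / N) * Real.sqrt (1 + 2 ^ j * M k / N)) =
      f k.valMinAbs.natAbs := by
    intro k
    have e : (2 : ℝ) ^ j * M k / N = a * max 1 (k.valMinAbs.natAbs : ℝ) := by
      rw [ha, M]; ring
    rw [e]
  rw [sum_congr rfl fun k _ => hterm k]
  have hf0 : ∀ m, 0 ≤ f m := by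
    intro m
    simp only [hf]
    have : 0 ≤ max 1 (m : ℝ) := le_trans zero_le_one (le_max_left _ _)
    positivity
  refine (Pool.Agent.H553.HH.fold N f hf0).trans ?_
  have h1 : f 0 ≤ 1 := by
    simp only [hf]
    have e : max 1 ((0 : ℕ) : ℝ) = 1 := by simp
    rw [e, mul_one, div_le_one (by positivity)]
    have h2 : 1 ≤ Real.sqrt (1 + a) := Real.one_le_sqrt.2 (by linarith)
    nlinarith
  have h2 : ∑ m ∈ range (N / 2), f (m + 1) ≤ 2 / a := by
    refine le_trans (le_of_eq (sum_congr rfl fun m _ => ?_))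
      (Pool.Agent.H553.HH.tele' a ha0 (N / 2))
    simp only [hf]
    have e : max 1 (((m + 1 : ℕ)) : ℝ) = (m : ℝ) + 1 := by
      push_cast
      exact max_eq_right (by linarith [Nat.cast_nonneg (α := ℝ) m])
    rw [e]
  have h3 : (N : ℝ) / 2 ^ j = 1 / a := by
    rw [ha]
    field_simp
  rw [h3]
  have h4 : 1 ≤ 1 / a := by
    rw [le_div_iff₀ ha0]; linarith
  have h5 : 2 / a = 2 * (1 / a) := by ring
  linarith

end Pool.Agent.H484.HH
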